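import Mathlib
import Pool.Agent.Y114.MU.Irr
import Pool.Agent.Y114.MU.SumTate

/-!
# The Tate conjecture for sums of representations with maximally unipotent monodromy
-/

set_option autoImplicit false
set_option linter.unusedSectionVars false

namespace Pool.Agent.X292.MU

open NumberField IsDedekindDomain Polynomial Module Pool.Agent.Y114.TF Pool.Agent.Y114.GF
  Pool.Agent.Y114.MU
open Pool.Agent.W569.FM Pool.Agent.W571.FM

theorem pow_sub_zero {A : Type*} [Ring A] {u : A} {m : ℕ} (h : (u - 1) ^ m = 0) (M : ℕ) :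
    (u ^ M - 1) ^ m = 0 := by
  have h6 : u ^ M - 1 = (u - 1) * ∑ l ∈ Finset.range M, u ^ l := (mul_geom_sum u M).symm
  have hc : Commute (u - 1) (∑ l ∈ Finset.range M, u ^ l) := by
    refine Commute.sum_right _ _ _ fun l _ => ?_
    exact ((Commute.refl u).pow_right l).sub_left (Commute.one_left _)
  rw [h6, hc.mul_pow, h, zero_mul]

/-- **The Tate conjecture for sums of representations with maximally unipotent monodromy.** -/
theorem tate_of_mum {F : Type} [Field F] [NumberField F] {ι : Type} [Fintype ι] {n : ι → ℕ}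
    (R : Realizations n Gal(AlgebraicClosure F/F)) {w : ℕ} (hR : IsSystem R w)
    (P : HeightOneSpectrum (𝓞 F) → ι → ℚ[X]) {ℓ : ℕ} (hℓ : ℓ.Prime) (T : Set ℕ)
    (hT3 : 3 ≤ T.encard) (hT : ∀ p ∈ T, p.Prime ∧ p ≠ ℓ ∧ UnramifiedIn F p)
    (hgood : ∀ p ∈ T, ∀ v, Above v p → GoodAt R w v (P v))
    (hmum : ∀ i, ∃ p, p.Prime ∧ p ≠ ℓ ∧ UnramifiedIn F p ∧
      (∃ v, Above v p ∧ MaxUnipotentAt R i v ∧ DistinguishedAt R i v) ∧
      ∀ v, Above v p → MaxUnipotentAt R i v ∨ GoodFor R w i v)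
    (hind : ∀ i, 4 ≤ n i → ∃ (v : HeightOneSpectrum (𝓞 F)) (f : ι → ℚ[X]), ¬ Above v ℓ ∧
      GoodAt R w v f ∧ ThreeIndependent (f i)) : R.TateAt ℓ := by
  classical
  have : Fact ℓ.Prime := ⟨hℓ⟩
  refine ⟨⟨hℓ⟩, ?_⟩
  have key : ∀ i, 0 < n i ∧ ∃ τ : Gal(AlgebraicClosure F/F), R.χ ℓ τ = 1 ∧
      (∀ j, IsNilpotent (R.ρ ℓ j τ - 1)) ∧ (R.ρ ℓ i τ - 1) ^ (n i - 1) ≠ 0 ∧
      ∀ j, j ≠ i → n j = n i → (R.ρ ℓ j τ - 1) ^ (n j - 1) = 0 := by
    intro i
    obtain ⟨p, hp, hpℓ, -, ⟨v, hv, hm, hd⟩, -⟩ := hmum i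
    have hvℓ : ¬ Above v ℓ := not_above_of_ne hp hℓ hpℓ hv
    obtain ⟨Q, φ, hQ, hQv, hφ⟩ := frob_cm v
    have hQ' : PrimeOver Q v := ⟨hQ.isPrime, hQv⟩
    obtain ⟨hu, τ, hτ, hne, -⟩ := hm ℓ hvℓ Q hQ'
    obtain ⟨-, hχ⟩ := char_inertia R hR hQ.isPrime hQv hvℓ hτ hφ
    have hn : 0 < n i := by
      by_contra h0
      apply hne
      have h1 : n i = 0 := by omega
      have : IsEmpty (Fin (n i)) := by rw [h1]; infer_instance
      exact LinearMap.ext fun x => Subsingleton.elim _ _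
    choose e he0 hen hez using fun (j : ι) (hj : j ≠ i) => hd j hj ℓ hvℓ Q hQ' τ hτ
    let E : ι → ℕ := fun j => if h : j ≠ i then e j h else 1
    have hE0 : ∀ j, 0 < E j := by
      intro j
      by_cases hj : j ≠ i
      · simp only [E, dif_pos hj]
        exact he0 j hj
      · simp only [E, dif_neg hj]
        exact one_pos
    have hM : 0 < ∏ j, E j := Finset.prod_pos fun j _ => hE0 j
    have hdiv : ∀ j (hj : j ≠ i), ∃ c, τ ^ (∏ j, E j) = (τ ^ e j hj) ^ c := by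
      intro j hj
      obtain ⟨c, hc⟩ := Finset.dvd_prod_of_mem E (Finset.mem_univ j)
      refine ⟨c, ?_⟩
      rw [← pow_mul, hc]
      simp only [E, dif_pos hj]
    refine ⟨hn, τ ^ (∏ j, E j), by rw [map_pow, hχ, one_pow], ?_, ?_, ?_⟩
    · intro j
      by_cases hj : j = i
      · subst hj
        obtain ⟨m, hm⟩ := hu τ hτ
        exact ⟨m, by rw [map_pow]; exact pow_sub_zero hm _⟩
      · obtain ⟨c, hc⟩ := hdiv j hj
        obtain ⟨m, hm⟩ := hen j hj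
        refine ⟨m, ?_⟩
        rw [hc, map_pow]
        exact pow_sub_zero hm _
    · rw [map_pow]
      exact (Pool.Agent.Y114.AP.pow_sub_one_pow_ne_zero (hu τ hτ) hne hM).1
    · intro j hj hji
      obtain ⟨c, hc⟩ := hdiv j hj
      rw [hc, map_pow]
      exact pow_sub_zero (hez j hj hji) _
  choose hn τ hχ hnil hne hz using key
  refine sum_tate (R.ρ ℓ) (R.χ ℓ) (R.ω ℓ) (fun i => n i - 1) ?_ ?_ (R.alt ℓ) (R.nondeg ℓ) (R.sim ℓ)
    ?_ τ hχ hnil hne ?_ ?_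
  · intro i
    rw [Module.finrank_fin_fun]
    have := hn i
    omega
  · intro i
    have h1 := even_of_alt (R.ω ℓ i) (R.alt ℓ i) (R.nondeg ℓ i)
    rw [Module.finrank_fin_fun] at h1
    exact Nat.Even.sub_odd (hn i) h1 odd_one
  · intro i W hW
    obtain ⟨p, hp, hpℓ, hpu, ⟨v, hv, hm, -⟩, hall⟩ := hmum i
    exact irreducible_of_mum (P := P) R hR T hT3 hT hgood i ⟨hp, hpℓ, hpu⟩ hv hm hall (hn i) W hW
  · intro i j hij hr
    refine hz i j (Ne.symm hij) ?_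
    have h1 := hn i
    have h2 := hn j
    have h3 : n j - 1 = n i - 1 := hr
    omega
  · intro i hi
    have hi' : 3 ≤ n i - 1 := hi
    obtain ⟨v, f, hvℓ, hf, h3⟩ := hind i (by omega)
    obtain ⟨Q, φ, hQ, hQv, hφ⟩ := frob_cm v
    exact ⟨φ⁻¹, f i, hf.frobenius ℓ hvℓ i Q ⟨hQ.isPrime, hQv⟩ φ hφ, h3⟩

end Pool.Agent.X292.MU
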